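import Pool.Agent.V11307.D8.Fin
import Pool.Agent.V11307.D8.Inv

set_option autoImplicit false

/-!
# MP_870110_co: positivity of sums of products of `q`-Delannoy numbers

All three rational functions `A`, `B`, `C` are Laurent polynomials in `q` with nonnegative integer
coefficients, for all positive integers `m, n, r`.
-/

namespace Pool.Agent.Results.MP_870110_co.Full

open Finset

/-- the Gaussian binomial coefficient `[n, k]` at `x`, which is `∏_{i=1}^k (1-x^{n-k+i})/(1-x^i)` for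
`0 ≤ k ≤ n` and `0` for `k > n` -/
noncomputable def gauss (x : RatFunc ℚ) (n k : ℕ) : RatFunc ℚ :=
  if k ≤ n then ∏ i ∈ Icc 1 k, (1 - x^(n-k+i)) / (1 - x^i) else 0

/-- `D_x(m,n) = ∑_{k=0}^n x^{k(k-1)/2} [n, k] [n+m-k, n]` -/
noncomputable def D (x : RatFunc ℚ) (m n : ℕ) : RatFunc ℚ :=
  ∑ k ∈ range (n+1), x^(k*(k-1)/2) * gauss x n k * gauss x (n+m-k) n

/-- the indeterminate -/
noncomputable def q : RatFunc ℚ := RatFunc.X

/-- `P_k = D_q(m,k) D_{1/q}(m,k)` -/
noncomputable def P (m k : ℕ) : RatFunc ℚ := D q m k * D q⁻¹ m k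

/-- the rational function `A` -/
noncomputable def A (m n : ℕ) : RatFunc ℚ :=
  (1 - q^m) * (1 - q^(m+1)) / ((1 - q^2) * (1 - q^n)^2) *
    ∑ k ∈ range n, (1 - q^(2*k+1)) * q^(-(k:ℤ)) * P m k

/-- the rational function `B` -/
noncomputable def B (m n r : ℕ) : RatFunc ℚ :=
  1 / (1 - q^n) * ∑ k ∈ range n, (1 - q^(2*k+1)) * q^(-(k:ℤ)) * (P m k)^r

/-- the rational function `C` -/
noncomputable def C (m n r : ℕ) : RatFunc ℚ :=
  1 / (1 - q^n) * ∑ k ∈ range n, (-1)^(n-1-k) * (1 - q^(2*k+1)) * q^(k*(k-1)/2) * (P m k)^r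

/-- `f` is a Laurent polynomial in `q` with nonnegative integer coefficients: `f = p(q) / q^N` for
some `N` and some polynomial `p` with natural number coefficients -/
def NonnegLaurent (f : RatFunc ℚ) : Prop :=
  ∃ (N : ℕ) (p : Polynomial ℕ), f = Polynomial.aeval q p / q^N

lemma q_ne : q ≠ 0 := RatFunc.X_ne_zero

lemma q_hx : ∀ i : ℕ, 1 - q^(i+1) ≠ 0 := by
  intro i h
  have h1 : algebraMap (Polynomial ℚ) (RatFunc ℚ) (1 - Polynomial.X^(i+1)) = 0 := by
    rw [map_sub, map_one, map_pow, RatFunc.algebraMap_X]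
    exact h
  rw [← map_zero (algebraMap (Polynomial ℚ) (RatFunc ℚ))] at h1
  have h2 := RatFunc.algebraMap_injective ℚ h1
  have h3 := congrArg (Polynomial.eval 2) h2
  simp only [Polynomial.eval_sub, Polynomial.eval_one, Polynomial.eval_pow, Polynomial.eval_X,
    Polynomial.eval_zero] at h3
  have h4 : (1:ℚ) < 2^(i+1) := one_lt_pow₀ (by norm_num) (by omega)
  linarith

lemma D_eq (x : RatFunc ℚ) (m n : ℕ) : D x m n = V11307.D8.Dl x m n := rfl

lemma P_eq (m : ℕ) : P m = V11307.D8.PP q m := by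
  funext k
  rw [P, D_eq, D_eq, V11307.D8.Dl_eq q_hx, V11307.D8.Dl_inv q_hx q_ne, V11307.D8.PP, mul_div_assoc]

lemma of_pos {f : RatFunc ℚ} (h : V11307.D8.Pos q f) : NonnegLaurent f := by
  obtain ⟨N, p, hp⟩ := h
  refine ⟨N, p, ?_⟩
  rw [eq_div_iff (pow_ne_zero _ q_ne), hp, Polynomial.aeval_def]
  congr 1
  exact Subsingleton.elim _ _

/-- **Q1 of MP_870110_co is true**: for all positive integers `m, n, r`, each of `A`, `B`, `C` is a
Laurent polynomial in `q` with nonnegative integer coefficients. -/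
theorem result (m n r : ℕ) (hm : 0 < m) (hn : 0 < n) (_hr : 0 < r) :
    NonnegLaurent (A m n) ∧ NonnegLaurent (B m n r) ∧ NonnegLaurent (C m n r) := by
  have e : ∀ k : ℕ, q^(-(k:ℤ)) = 1 / q^k := by
    intro k
    rw [zpow_neg, zpow_natCast, one_div]
  refine ⟨?_, ?_, ?_⟩
  · obtain ⟨m, rfl⟩ : ∃ c, m = c+1 := ⟨m-1, by omega⟩
    obtain ⟨n, rfl⟩ : ∃ c, n = c+1 := ⟨n-1, by omega⟩
    apply of_pos
    have := V11307.D8.posA q_hx q_ne m n
    simp only [A, e, P_eq]
    exact this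
  · apply of_pos
    have := V11307.D8.Comb.B q_hx q_ne hn (V11307.D8.Comb.pow q_hx q_ne (V11307.D8.combPP q_hx q_ne m n) r)
    simp only [B, e, P_eq]
    exact this
  · apply of_pos
    have := V11307.D8.Comb.C q_hx q_ne hn (V11307.D8.Comb.pow q_hx q_ne (V11307.D8.combPP q_hx q_ne m n) r)
    simp only [C, P_eq]
    simp only [V11307.D8.tr_eq] at this
    exact this

end Pool.Agent.Results.MP_870110_co.Full
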